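import Pool.Agent.Lib.Pe3602a.Exist

/-!
# Disproof of the energy identity for scalar curvature on noncollapsed Ricci limits

For every `n ≥ 2` and every `v` below the volume of the Euclidean unit ball there is a sequence of
complete Riemannian metrics `g j` on `ℝⁿ` (graphs of smooth convex functions) with `Ric ≥ 0`
(hence `Ric ≥ -lam` for every `lam ≥ 0`) and `Vol(B₁(0)) ≥ v`, which converges in the pointed
Gromov-Hausdorff sense, and such that no subsequence of the scalar curvature measures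
`scal (g j) dv` converges to a measure of the form
`R dℋⁿ + θ dℋⁿ⁻¹⌞S + w dℋⁿ⁻²⌞T` with locally integrable `R`, `θ`, `w`, for arbitrary sets
`S`, `T`. The limits have a Cantor part: a part which is singular to `ℋⁿ` but does not charge
sets of σ-finite `ℋⁿ⁻¹` measure.
-/

open MeasureTheory Measure Filter Topology Set
open scoped ContDiff ENNReal NNReal

namespace Pool.Agent.Results.MP_e3602a_gt.CantorCurvature

open Pool.Agent.Lib.Pe3602a

/-- The answer to Q1 is negative in every dimension `n ≥ 2`, for every Ricci lower bound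
`-lam ≤ 0` and every noncollapsing constant `v` below the volume of the Euclidean unit ball. -/
theorem result (n : ℕ) (hn : 2 ≤ n) (v : ℝ)
    (hv : ENNReal.ofReal v < volume {y : Fin n → ℝ | ∑ i, y i ^ 2 < 1}) :
    ∃ g : ℕ → MetricField n,
      (∀ j, IsRiemannianMetric (g j) ∧ IsCompleteMetric (g j) ∧
        (∀ lam : ℝ, 0 ≤ lam → RicciGe (g j) lam) ∧
        ENNReal.ofReal v ≤ rvol (g j) (rball (g j) 0 1)) ∧
      (∃ (X : Type) (_ : MetricSpace X) (_ : CompleteSpace X) (_ : MeasurableSpace X)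
        (_ : BorelSpace X) (q : X) (φ : ℕ → (Fin n → ℝ) → X) (ε : ℕ → ℝ),
        IsGHApprox g q φ ε) ∧
      ∀ k : ℕ → ℕ, StrictMono k →
        ∀ (X : Type) [MetricSpace X] [CompleteSpace X] [MeasurableSpace X] [BorelSpace X]
          (q : X) (φ : ℕ → (Fin n → ℝ) → X) (ε : ℕ → ℝ),
          IsGHApprox (fun j => g (k j)) q φ ε →
        ∀ (R θ w : X → ℝ) (S T : Set X),
          LocallyIntegrable R (μH[(n : ℝ)]) →
          LocallyIntegrable θ ((μH[(n : ℝ) - 1]).restrict S) →
          LocallyIntegrable w ((μH[(n : ℝ) - 2]).restrict T) →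
          ¬ ∀ f : X → ℝ, Continuous f → HasCompactSupport f →
            Tendsto
              (fun j => ∫ a in rball (g (k j)) 0 (1 / ε j),
                f (φ j a) * (scal (g (k j)) a * √(g (k j) a).det))
              atTop
              (𝓝 (∫ y, f y * R y ∂(μH[(n : ℝ)]) + ∫ y in S, f y * θ y ∂(μH[(n : ℝ) - 1]) +
                ∫ y in T, f y * w y ∂(μH[(n : ℝ) - 2]))) := by
  obtain ⟨m, rfl⟩ : ∃ m, n = m + 2 := ⟨n - 2, by omega⟩
  obtain ⟨ν, K, hprob, hν, hI, hKm, hK0, hKν⟩ := exists_singular_measure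
  haveI := hprob
  have hv' : ENNReal.ofReal v < volume (eball (m + 2) 1) := by
    have : eball (m + 2) 1 = {y : Fin (m + 2) → ℝ | ∑ i, y i ^ 2 < 1} := by
      ext y; simp [eball]
    rw [this]; exact hv
  obtain ⟨r, hr0, hr1, hrv⟩ := exists_radius hv'
  -- choice of the slope
  obtain ⟨δ, hδ, hδr⟩ : ∃ δ : ℝ, 0 < δ ∧ (1 + 2 * (2 * δ) ^ 2) * r ^ 2 ≤ 1 := by
    refine ⟨√((1 - r ^ 2) / (8 * r ^ 2)), ?_, ?_⟩
    · apply Real.sqrt_pos.mpr
      apply div_pos _ (by positivity)
      nlinarith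
    · have h1 : (0 : ℝ) ≤ (1 - r ^ 2) / (8 * r ^ 2) := by
        apply div_nonneg _ (by positivity)
        nlinarith
      rw [mul_pow, Real.sq_sqrt h1]
      apply le_of_eq
      field_simp
      ring
  refine ⟨gseq m ν δ, ?_, exists_limit_space ν hδ hν hI, ?_⟩
  · intro j
    refine ⟨gseq_riemannian ν j, isCompleteMetric_of_biLipschitz (gseq_low ν j)
      (gseq_up ν hδ.le j), fun lam hlam => gseq_ricci ν hδ.le j hlam, ?_⟩
    exact hrv.trans (rvol_gmet_ge (continuous_afun ν j) continuous_bfun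
      (abs_afun_le ν hδ.le j) (abs_bfun_le hδ.le) hr0 hδr)
  · intro k hk X _ _ _ _ q φ ε H R θ w S T hR hθ hw hcon
    haveI : ProperSpace X := properSpace_of_approx (fun j => gseq_low ν (k j))
      (fun j => gseq_up ν hδ.le (k j)) (CL_pos m (2 * δ)) H
    obtain ⟨l, hl, Ψ, hΨ, hlim⟩ := curvature_limit ν hδ hν hI hk H
    apply limit_not_form ν hδ hν hKm hK0 hKν q (CL_pos m (2 * δ)) hΨ hR hθ hw
    intro f hf hfc
    exact tendsto_nhds_unique (hlim f hf hfc) ((hcon f hf hfc).comp hl.tendsto_atTop)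

end Pool.Agent.Results.MP_e3602a_gt.CantorCurvature
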